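import Pool.Agent.Helper26.AL.GoalsB
import Pool.Agent.Helper33.AF.GRF
import Pool.Agent.Helper83.AF.UG

/-!
Project AL (MP_af6c86_pr), packet GRX: from pairings to graphs, with the genus.
-/

set_option autoImplicit false
set_option linter.unusedSectionVars false

namespace Pool.Agent.Helper23.AL

open Finset Pool.Agent.Helper26.AF Pool.Agent.Helper26.AL Pool.Agent.Helper33.AF

section good

variable {r N : ℕ} {τ : Equiv.Perm (HH r N)}

/-- every component contains a cubic vertex -/
theorem exists_inl (g : Good τ) (c : (Gr τ).ConnectedComponent) :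
    ∃ v : Fin (2 * r), (Gr τ).connectedComponentMk (Sum.inl v) = c := by
  by_contra hcon
  push Not at hcon
  obtain ⟨v0, hv0⟩ := c.exists_rep
  have hne : ({w : Fin N | (Gr τ).connectedComponentMk (Sum.inr w) = c} : Set (Fin N)).Nonempty := by
    rcases v0 with v | w
    · exact absurd hv0 (hcon v)
    · exact ⟨w, hv0⟩
  obtain ⟨w, hw, b, hb⟩ := g.np _ hne
  have hadj : (Gr τ).Adj (vt (Sum.inr (w, b))) (vt (τ (Sum.inr (w, b)))) :=
    (g.adj _ _).2 ⟨_, rfl, rfl⟩
  have hcc : (Gr τ).connectedComponentMk (vt (τ (Sum.inr (w, b)))) = c := by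
    rw [← SimpleGraph.ConnectedComponent.sound hadj.reachable]
    exact hw
  rcases hx : τ (Sum.inr (w, b)) with x | ⟨w', b'⟩
  · rw [hx] at hcc
    exact hcon x.1 hcc
  · rw [hx] at hcc
    exact hb w' hcc b' hx

theorem card_comp_darts (g : Good τ) (c : (Gr τ).ConnectedComponent) :
    2 * Nat.card {v : VV r N // (Gr τ).connectedComponentMk v = c} + 1 ≤
      Nat.card {d : (Gr τ).Dart // Pool.Agent.Helper83.AF.cd (Gr τ) d = c} := by
  classical
  have e1 : {d : (Gr τ).Dart // Pool.Agent.Helper83.AF.cd (Gr τ) d = c} ≃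
      {h : HH r N // (Gr τ).connectedComponentMk (vt h) = c} :=
    (Equiv.subtypeEquiv g.E (fun h => Iff.rfl)).symm
  rw [Nat.card_congr e1]
  have h2 := Pool.Agent.Helper83.AF.sum_fibers
    (fun h : {h : HH r N // (Gr τ).connectedComponentMk (vt h) = c} =>
      (⟨vt h.1, h.2⟩ : {v : VV r N // (Gr τ).connectedComponentMk v = c}))
  rw [h2]
  have h3 : ∀ v : {v : VV r N // (Gr τ).connectedComponentMk v = c},
      Nat.card {a : {h : HH r N // (Gr τ).connectedComponentMk (vt h) = c} //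
        (⟨vt a.1, a.2⟩ : {v : VV r N // (Gr τ).connectedComponentMk v = c}) = v} =
      Nat.card {h : HH r N // vt h = v.1} := by
    intro v
    apply Nat.card_congr
    exact {
      toFun := fun a => ⟨a.1.1, congrArg Subtype.val a.2⟩
      invFun := fun h => ⟨⟨h.1, by rw [h.2]; exact v.2⟩, Subtype.ext h.2⟩
      left_inv := fun a => rfl
      right_inv := fun h => rfl }
  simp only [h3]
  have h4 : ∀ v : {v : VV r N // (Gr τ).connectedComponentMk v = c},
      2 ≤ Nat.card {h : HH r N // vt h = v.1} := by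
    rintro ⟨v | w, hv⟩
    · rw [card_fib_inl]
      omega
    · rw [card_fib_inr]
  obtain ⟨v0, hv0⟩ := exists_inl g c
  have h5 : ∑ _v : {v : VV r N // (Gr τ).connectedComponentMk v = c}, 2 <
      ∑ v : {v : VV r N // (Gr τ).connectedComponentMk v = c},
        Nat.card {h : HH r N // vt h = v.1} := by
    refine Finset.sum_lt_sum (fun v _ => h4 v) ⟨⟨Sum.inl v0, hv0⟩, mem_univ _, ?_⟩
    rw [card_fib_inl]
    omega
  rw [Finset.sum_const, Finset.card_univ, smul_eq_mul, ← Nat.card_eq_fintype_card] at h5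
  omega

theorem cxg (g : Good τ) : CXG (Gr τ) := by
  classical
  rintro Q ⟨c, hc⟩
  have hQ : Q = Pool.Agent.Helper83.AF.sc (Gr τ) c := by
    ext v
    rw [Pool.Agent.Helper83.AF.mem_sc, ← Finset.mem_coe, ← hc]
    rfl
  subst hQ
  have h1 := card_comp_darts g c
  rw [Pool.Agent.Helper83.AF.card_darts] at h1
  have h2 := Pool.Agent.Helper83.AF.ec_le (Gr τ) c
  rw [Pool.Agent.Helper83.AF.card_sc]
  unfold Pool.Agent.Helper83.AF.nc
  omega

theorem cmq_eq (g : Good τ) : cmq τ vt = Nat.card (Gr τ).ConnectedComponent := by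
  classical
  unfold cmq
  set R : HH r N → HH r N → Prop := fun a b => b = τ a ∨ vt b = vt a with hR
  let F : VV r N → Quot R := fun v => Quot.mk R (Classical.choose (exists_dart v))
  have hF : ∀ h : HH r N, F (vt h) = Quot.mk R h := by
    intro h
    apply Quot.sound
    right
    exact (Classical.choose_spec (exists_dart (vt h))).symm
  have hadj : ∀ a b, (Gr τ).Adj a b → F a = F b := by
    intro a b hab
    obtain ⟨h, rfl, rfl⟩ := (g.adj a b).1 hab
    rw [hF, hF]
    exact Quot.sound (Or.inl rfl)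
  have hreach : ∀ a b, (Gr τ).Reachable a b → F a = F b := by
    rintro a b ⟨p⟩
    induction p with
    | nil => rfl
    | cons h _ ih => exact (hadj _ _ h).trans ih
  let f : Quot R → (Gr τ).ConnectedComponent :=
    Quot.lift (fun h => (Gr τ).connectedComponentMk (vt h)) (by
      rintro a b (rfl | hab)
      · exact SimpleGraph.ConnectedComponent.sound
          (((g.adj _ _).2 ⟨a, rfl, rfl⟩ : (Gr τ).Adj (vt a) (vt (τ a))).reachable)
      · rw [hab])
  apply Nat.card_congr
  refine Equiv.ofBijective f ⟨?_, ?_⟩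
  · intro x y
    induction x using Quot.ind with
    | mk a =>
      induction y using Quot.ind with
      | mk b =>
        intro h
        have h1 : (Gr τ).Reachable (vt a) (vt b) := SimpleGraph.ConnectedComponent.exact h
        rw [← hF a, ← hF b]
        exact hreach _ _ h1
  · intro c
    induction c using SimpleGraph.ConnectedComponent.ind with
    | _ v =>
      obtain ⟨h, rfl⟩ := exists_dart v
      exact ⟨Quot.mk R h, rfl⟩

theorem ne_eq (g : Good τ) : ne (Gr τ) = 3 * r + N := by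
  classical
  have h1 := Pool.Agent.Helper83.AF.card_all_darts (Gr τ)
  rw [← Nat.card_congr g.E, Nat.card_eq_fintype_card] at h1
  simp only [Fintype.card_sum, Fintype.card_prod, Fintype.card_fin, Fintype.card_bool] at h1
  omega

/-- the rotation system on the pairing -/
def rho (N : ℕ) (σ : Equiv.Perm (KX r)) : Equiv.Perm (HH r N) :=
  Equiv.sumCongr σ (Equiv.prodCongr (Equiv.refl (Fin N)) (Equiv.swap false true))

theorem rho_inr (σ : Equiv.Perm (KX r)) (w : Fin N) (b : Bool) :
    rho N σ (Sum.inr (w, b)) = Sum.inr (w, !b) := by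
  cases b <;> simp [rho]

theorem vt_rho {σ : Equiv.Perm (KX r)} (hσ : RotX σ) (h : HH r N) : vt (rho N σ h) = vt h := by
  rcases h with x | ⟨w, b⟩
  · change Sum.inl (σ x).1 = Sum.inl x.1
    rw [hσ.1]
  · rw [rho_inr]
    rfl

theorem rho_cyc {σ : Equiv.Perm (KX r)} (hσ : RotX σ) (h h' : HH r N) (e : vt h = vt h') :
    (rho N σ).SameCycle h h' := by
  rcases h with x | ⟨w, b⟩
  · obtain ⟨i, rfl⟩ := vt_eq_inl (show vt h' = Sum.inl x.1 from e.symm)
    obtain ⟨n, hn⟩ := hσ.2 x (x.1, i) rfl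
    refine ⟨n, ?_⟩
    unfold rho
    rw [sumCongr_zpow_inl, hn]
  · obtain ⟨b', rfl⟩ := vt_eq_inr (show vt h' = Sum.inr w from e.symm)
    by_cases hb : b' = b
    · rw [hb]
    · have hb' := bool_of_ne hb
      subst hb'
      refine ⟨1, ?_⟩
      rw [zpow_one, rho_inr]

/-- the rotation system of the graph -/
noncomputable def sg (g : Good τ) (σ : Equiv.Perm (KX r)) : Equiv.Perm (Gr τ).Dart :=
  (g.E.symm.trans (rho N σ)).trans g.E

theorem sg_E (g : Good τ) (σ : Equiv.Perm (KX r)) (h : HH r N) :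
    g.E (rho N σ h) = sg g σ (g.E h) := by
  change _ = g.E (rho N σ (g.E.symm (g.E h)))
  rw [Equiv.symm_apply_apply]

theorem isRot_sg (g : Good τ) {σ : Equiv.Perm (KX r)} (hσ : RotX σ) : IsRot (Gr τ) (sg g σ) := by
  constructor
  · intro d
    obtain ⟨h, rfl⟩ := g.E.surjective d
    rw [← sg_E, g.E_fst, g.E_fst, vt_rho hσ]
  · intro d e hde
    obtain ⟨h, rfl⟩ := g.E.surjective d
    obtain ⟨h', rfl⟩ := g.E.surjective e
    rw [g.E_fst, g.E_fst] at hde
    exact (sameCycle_conj' g.E (rho N σ) (sg g σ) (sg_E g σ) h h').1 (rho_cyc hσ h h' hde)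

theorem orb_sg (g : Good τ) (σ : Equiv.Perm (KX r)) :
    orb (rho N σ * τ) = orb (sg g σ * rev (Gr τ)) := by
  apply orb_conj g.E
  intro h
  rw [Equiv.Perm.mul_apply, Equiv.Perm.mul_apply, sg_E, g.E_rev]

theorem eo (g : Good τ) (o : Option ℕ) (ho : EP o τ) : EO o (Gr τ) := by
  intro gg hgg
  obtain ⟨σ, hσ, hle⟩ := ho gg hgg
  refine ⟨sg g σ, isRot_sg g hσ, ?_⟩
  have h1 : Nat.card (VV r N) = 2 * r + N := by
    rw [Nat.card_eq_fintype_card]
    simp
  unfold faces
  rw [← orb_sg, ne_eq g, h1, ← cmq_eq g]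
  have h2 : orb (rho N σ * τ) = orb (Equiv.sumCongr σ (Equiv.prodCongr (Equiv.refl (Fin N))
      (Equiv.swap false true)) * τ) := rfl
  rw [← h2] at hle
  omega

end good

theorem goalGRX : Pool.Agent.Helper26.AL.StmtGRX := by
  classical
  intro o r N _
  let S : Set (Equiv.Perm (HH r N)) := {τ | IsPair τ ∧ NoPure τ ∧ ¬ Short τ ∧ EP o τ}
  have hG : ∀ τ ∈ S, Good τ := fun τ hτ => ⟨hτ.1, hτ.2.1, hτ.2.2.1⟩
  have hQ : ∀ τ ∈ S, CubG o r N (Gr τ) := by
    intro τ hτ
    refine ⟨cxg (hG τ hτ), ?_, ?_, eo (hG τ hτ) o hτ.2.2.2⟩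
    · intro v
      rw [(hG τ hτ).dg_eq, card_fib_inl]
    · intro w
      rw [(hG τ hτ).dg_eq, card_fib_inr]
  let F : S → {Γ : SimpleGraph (VV r N) // CubG o r N Γ} := fun τ => ⟨Gr τ.1, hQ τ.1 τ.2⟩
  have h1 : Nat.card S = ∑ Γ : {Γ : SimpleGraph (VV r N) // CubG o r N Γ},
      Nat.card {τ : S // F τ = Γ} := by
    rw [← Nat.card_sigma]
    exact (Nat.card_congr (Equiv.sigmaFiberEquiv F)).symm
  change Nat.card S ≤ _
  rw [h1]
  have h2 : ∀ Γ : {Γ : SimpleGraph (VV r N) // CubG o r N Γ}, Nat.card {τ : S // F τ = Γ} ≤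
      6 ^ (2 * r) * 2 ^ N := by
    intro Γ
    refine le_trans (le_of_eq ?_) (card_fiber S hG Γ.1)
    apply Nat.card_congr
    exact Equiv.subtypeEquivRight (fun τ => Subtype.ext_iff)
  refine (Finset.sum_le_card_nsmul _ _ _ (fun Γ _ => h2 Γ)).trans (le_of_eq ?_)
  rw [Finset.card_univ, smul_eq_mul, mul_comm, ← Nat.card_eq_fintype_card]

end Pool.Agent.Helper23.AL
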