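import Pool.Agent.Helper26.AL.GoalsA
import Pool.Agent.Helper15.AF.CCN
import Pool.Agent.Helper18.AF.DELG
import Pool.Agent.Helper33.AF.GRF
import Pool.Agent.Helper46.AF.SWAP
import Pool.Agent.Helper92.AF.ORBS

/-!
Project AL (MP_af6c86_pr), packet PEN: adding a pendant edge does not change the genus.
-/

set_option autoImplicit false
set_option linter.unusedSectionVars false

namespace Pool.Agent.Helper23.AL.PEN

open Finset Pool.Agent.Helper26.AF
open Pool.Agent.Helper18.AF (dEquiv rev_pair iso_count)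
open Pool.Agent.Helper33.AF (sumCongr_zpow_inl sameCycle_conj' orb_conj)

section orb_sum

variable {A B : Type}

theorem sumCongr_zpow_inr (σ : Equiv.Perm A) (σ' : Equiv.Perm B) (n : ℤ) (b : B) :
    ((Equiv.sumCongr σ σ' : Equiv.Perm (A ⊕ B)) ^ n) (Sum.inr b) = Sum.inr ((σ' ^ n) b) := by
  have h1 : (Equiv.sumCongr σ σ' : Equiv.Perm (A ⊕ B)) = Equiv.Perm.sumCongrHom A B (σ, σ') := rfl
  rw [h1, ← map_zpow]
  rfl

theorem sc_inl (α : Equiv.Perm A) (β : Equiv.Perm B) (a a' : A) :
    Equiv.Perm.SameCycle (Equiv.sumCongr α β : Equiv.Perm (A ⊕ B)) (Sum.inl a) (Sum.inl a') ↔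
      α.SameCycle a a' := by
  constructor
  · rintro ⟨n, hn⟩
    rw [sumCongr_zpow_inl] at hn
    exact ⟨n, Sum.inl_injective hn⟩
  · rintro ⟨n, hn⟩
    exact ⟨n, by rw [sumCongr_zpow_inl, hn]⟩

theorem sc_inr (α : Equiv.Perm A) (β : Equiv.Perm B) (b b' : B) :
    Equiv.Perm.SameCycle (Equiv.sumCongr α β : Equiv.Perm (A ⊕ B)) (Sum.inr b) (Sum.inr b') ↔
      β.SameCycle b b' := by
  constructor
  · rintro ⟨n, hn⟩
    rw [sumCongr_zpow_inr] at hn
    exact ⟨n, Sum.inr_injective hn⟩
  · rintro ⟨n, hn⟩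
    exact ⟨n, by rw [sumCongr_zpow_inr, hn]⟩

theorem sc_mix (α : Equiv.Perm A) (β : Equiv.Perm B) (a : A) (b : B) :
    ¬ Equiv.Perm.SameCycle (Equiv.sumCongr α β : Equiv.Perm (A ⊕ B)) (Sum.inl a) (Sum.inr b) := by
  rintro ⟨n, hn⟩
  rw [sumCongr_zpow_inl] at hn
  exact absurd hn (by simp)

theorem orb_sumCongr [Finite A] [Finite B] (α : Equiv.Perm A) (β : Equiv.Perm B) :
    orb (Equiv.sumCongr α β : Equiv.Perm (A ⊕ B)) = orb α + orb β := by
  unfold orb
  rw [← Nat.card_sum]
  let f : A ⊕ B → Quotient (Equiv.Perm.SameCycle.setoid α) ⊕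
      Quotient (Equiv.Perm.SameCycle.setoid β) :=
    Sum.map (Quotient.mk (Equiv.Perm.SameCycle.setoid α))
      (Quotient.mk (Equiv.Perm.SameCycle.setoid β))
  have hf : ∀ x y : A ⊕ B, Equiv.Perm.SameCycle (Equiv.sumCongr α β : Equiv.Perm (A ⊕ B)) x y ↔
      f x = f y := by
    rintro (a | b) (a' | b')
    · rw [sc_inl]
      simp only [f, Sum.map_inl, Sum.inl.injEq]
      exact (Quotient.eq (r := Equiv.Perm.SameCycle.setoid α) (x := a) (y := a')).symm
    · simp only [f, Sum.map_inl, Sum.map_inr, reduceCtorEq, iff_false]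
      exact sc_mix α β a b'
    · simp only [f, Sum.map_inl, Sum.map_inr, reduceCtorEq, iff_false]
      exact fun h => sc_mix α β a' b h.symm
    · rw [sc_inr]
      simp only [f, Sum.map_inr, Sum.inr.injEq]
      exact (Quotient.eq (r := Equiv.Perm.SameCycle.setoid β) (x := b) (y := b')).symm
  apply Nat.card_congr
  refine Equiv.ofBijective (Quotient.lift f fun x y h => (hf x y).1 h) ⟨?_, ?_⟩
  · intro x y
    induction x using Quotient.ind with
    | _ x =>
      induction y using Quotient.ind with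
      | _ y =>
        intro h
        exact Quotient.sound ((hf x y).2 h)
  · rintro (x | x)
    · induction x using Quotient.ind with
      | _ a => exact ⟨Quotient.mk _ (Sum.inl a), rfl⟩
    · induction x using Quotient.ind with
      | _ b => exact ⟨Quotient.mk _ (Sum.inr b), rfl⟩

theorem orb_swap : orb (Equiv.swap false true) = 1 := by
  unfold orb
  rw [Nat.card_eq_one_iff_unique]
  refine ⟨⟨?_⟩, ⟨Quotient.mk _ true⟩⟩
  have hc : ∀ x y : Bool, (Equiv.swap false true).SameCycle x y := by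
    intro x y
    by_cases h : x = y
    · rw [h]
    · refine ⟨1, ?_⟩
      cases x <;> cases y <;> simp_all
  intro x y
  induction x using Quotient.ind with
  | _ x =>
    induction y using Quotient.ind with
    | _ y => exact Quotient.sound (hc x y)

end orb_sum

section main

variable {V : Type} [Fintype V] [DecidableEq V] {G : SimpleGraph V} {x y : V} (h : G.Adj x y)

/-- the darts of `G` -/
def fE : (G.deleteEdges {s(x, y)}).Dart ⊕ Bool → G.Dart
  | Sum.inl a => ⟨a.toProd, (SimpleGraph.deleteEdges_adj.1 a.adj).1⟩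
  | Sum.inr false => ⟨(x, y), h⟩
  | Sum.inr true => ⟨(y, x), h.symm⟩

theorem bij_fE : Function.Bijective (fE h) := by
  have hxy : x ≠ y := h.ne
  have hn : ∀ a : (G.deleteEdges {s(x, y)}).Dart, a.toProd ≠ (x, y) ∧ a.toProd ≠ (y, x) := by
    intro a
    have h2 := (SimpleGraph.deleteEdges_adj.1 a.adj).2
    rw [Set.mem_singleton_iff] at h2
    constructor
    · intro h4
      apply h2
      rw [h4]
    · intro h4
      apply h2
      rw [h4]
      exact Sym2.eq_swap
  constructor
  · rintro (a | a) (b | b) hab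
    · have h1 := congrArg SimpleGraph.Dart.toProd hab
      exact congrArg Sum.inl (SimpleGraph.Dart.ext _ _ h1)
    · cases b
      · exact absurd (congrArg SimpleGraph.Dart.toProd hab) (hn a).1
      · exact absurd (congrArg SimpleGraph.Dart.toProd hab) (hn a).2
    · cases a
      · exact absurd (congrArg SimpleGraph.Dart.toProd hab).symm (hn b).1
      · exact absurd (congrArg SimpleGraph.Dart.toProd hab).symm (hn b).2
    · cases a <;> cases b
      · rfl
      · exact absurd (congrArg (fun d : G.Dart => d.toProd.1) hab) hxy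
      · exact absurd (congrArg (fun d : G.Dart => d.toProd.1) hab) hxy.symm
      · rfl
  · intro z
    by_cases h1 : z.toProd = (x, y)
    · exact ⟨Sum.inr false, SimpleGraph.Dart.ext _ _ h1.symm⟩
    · by_cases h2 : z.toProd = (y, x)
      · exact ⟨Sum.inr true, SimpleGraph.Dart.ext _ _ h2.symm⟩
      · refine ⟨Sum.inl ⟨z.toProd, ?_⟩, rfl⟩
        rw [SimpleGraph.deleteEdges_adj, Set.mem_singleton_iff]
        refine ⟨z.adj, fun h3 => ?_⟩
        have h4 : s(z.toProd.1, z.toProd.2) = s(x, y) := h3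
        rw [Sym2.eq_iff] at h4
        rcases h4 with ⟨h5, h6⟩ | ⟨h5, h6⟩
        · exact h1 (Prod.ext h5 h6)
        · exact h2 (Prod.ext h5 h6)

/-- the darts of `G` -/
noncomputable def EE' : (G.deleteEdges {s(x, y)}).Dart ⊕ Bool ≃ G.Dart :=
  Equiv.ofBijective (fE h) (bij_fE h)

/-- the reversal -/
def TT (G : SimpleGraph V) (x y : V) : Equiv.Perm ((G.deleteEdges {s(x, y)}).Dart ⊕ Bool) :=
  Equiv.sumCongr (rev (G.deleteEdges {s(x, y)})) (Equiv.swap false true)

theorem EE_TT (a : (G.deleteEdges {s(x, y)}).Dart ⊕ Bool) :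
    EE' h (TT G x y a) = rev G (EE' h a) := by
  rcases a with a | a
  · rfl
  · cases a
    · have h1 : TT G x y (Sum.inr false) = Sum.inr true := by simp [TT]
      rw [h1]
      rfl
    · have h1 : TT G x y (Sum.inr true) = Sum.inr false := by simp [TT]
      rw [h1]
      rfl

theorem lift_rot (s : Equiv.Perm ((G.deleteEdges {s(x, y)}).Dart ⊕ Bool))
    (hsrc : ∀ a, (fE h (s a)).fst = (fE h a).fst)
    (hcyc : ∀ a b, (fE h a).fst = (fE h b).fst → s.SameCycle a b) :
    ∃ σ : Equiv.Perm G.Dart, IsRot G σ ∧ orb (σ * rev G) = orb (s * TT G x y) := by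
  have hs : ∀ a, EE' h (s a) = ((EE' h).symm.trans (s.trans (EE' h)) : Equiv.Perm G.Dart)
      (EE' h a) := by
    intro a
    change _ = EE' h (s ((EE' h).symm (EE' h a)))
    rw [Equiv.symm_apply_apply]
  refine ⟨(EE' h).symm.trans (s.trans (EE' h)), ⟨?_, ?_⟩, ?_⟩
  · intro d
    obtain ⟨a, rfl⟩ := (EE' h).surjective d
    rw [← hs]
    exact hsrc a
  · intro d e hde
    obtain ⟨a, rfl⟩ := (EE' h).surjective d
    obtain ⟨b, rfl⟩ := (EE' h).surjective e
    exact (sameCycle_conj' (EE' h) s _ hs a b).1 (hcyc a b hde)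
  · symm
    apply orb_conj (EE' h)
    intro a
    rw [Equiv.Perm.mul_apply, Equiv.Perm.mul_apply, hs, EE_TT]

end main

theorem not_adj {V : Type} {G : SimpleGraph V} {x y : V} (hl : ∀ z, G.Adj x z → z = y) (z : V) :
    ¬ (G.deleteEdges {s(x, y)}).Adj x z := by
  rw [SimpleGraph.deleteEdges_adj, Set.mem_singleton_iff]
  rintro ⟨h1, h2⟩
  apply h2
  rw [hl z h1]

theorem goalPEN' (hSWAP : StmtSWAP) (hCCN : StmtCCN) : Pool.Agent.Helper26.AL.StmtPEN := by
  classical
  intro V _ _ G x y g h hl hG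
  set G₀ := G.deleteEdges {s(x, y)} with hG₀
  obtain ⟨σ₀, hσ₀, hineq⟩ := hG
  have hxy : x ≠ y := h.ne
  have hx0 : ∀ z, ¬ G₀.Adj x z := not_adj hl
  have hadj : ∀ a b, G₀.Adj a b ↔ G.Adj a b ∧ s(a, b) ≠ s(x, y) := by
    intro a b
    rw [hG₀, SimpleGraph.deleteEdges_adj, Set.mem_singleton_iff]
  -- numbers of edges and components
  have hne : ne G = ne G₀ + 1 := by
    unfold ne
    rw [hG₀, SimpleGraph.edgeSet_deleteEdges]
    have hmem : s(x, y) ∈ G.edgeSet := h
    exact (Set.ncard_sdiff_singleton_add_one hmem (Set.toFinite _)).symm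
  have hreach : ¬ G₀.Reachable x y := by
    intro hr
    obtain ⟨p⟩ := hr
    cases p with
    | nil => exact hxy rfl
    | cons ha _ => exact hx0 _ ha
  have hcc := (hCCN V G x y h).2 hreach
  rw [← hG₀] at hcc
  -- isolated vertices
  have hiso := iso_count (fun w => ∀ z, ¬ G.Adj w z) (fun w => ∀ z, ¬ G₀.Adj w z) x y hxy
    (fun h' => h' y h) (fun h' => h' x h.symm) (by
      intro w hwu hwv
      refine forall_congr' fun z => not_congr ?_
      rw [hadj]
      refine ⟨fun h => h.1, fun h => ⟨h, fun h4 => ?_⟩⟩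
      rw [Sym2.eq_iff] at h4
      rcases h4 with ⟨h5, _⟩ | ⟨h5, _⟩
      · exact hwu h5
      · exact hwv h5)
  rw [if_pos hx0] at hiso
  -- it is enough to find the rotation system
  have key : ∀ s : Equiv.Perm (G₀.Dart ⊕ Bool), (∀ a, (fE h (s a)).fst = (fE h a).fst) →
      (∀ a b, (fE h a).fst = (fE h b).fst → s.SameCycle a b) →
      (orb (σ₀ * rev G₀) + (if ∀ z, ¬ G₀.Adj y z then 1 else 0) ≤ orb (s * TT G x y)) →
      Embeds G g := by
    intro s h1 h2 h3
    obtain ⟨σ, hσ, ho⟩ := lift_rot h s h1 h2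
    refine ⟨σ, hσ, ?_⟩
    unfold faces at hineq ⊢
    rw [ho]
    rw [hiso, hcc] at hineq
    omega
  have hST : (Equiv.sumCongr σ₀ (1 : Equiv.Perm Bool) : Equiv.Perm (G₀.Dart ⊕ Bool)) * TT G x y =
      Equiv.sumCongr (σ₀ * rev G₀) (Equiv.swap false true) := by
    ext1 a
    rcases a with a | a
    · rfl
    · rfl
  have hoST : orb ((Equiv.sumCongr σ₀ (1 : Equiv.Perm Bool) : Equiv.Perm (G₀.Dart ⊕ Bool)) *
      TT G x y) = orb (σ₀ * rev G₀) + 1 := by
    rw [hST, orb_sumCongr, orb_swap]
  have hax : ∀ a : G₀.Dart, a.fst ≠ x := by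
    intro a ha
    have h1 := a.adj
    rw [ha] at h1
    exact hx0 _ h1
  by_cases hy : ∀ z, ¬ G₀.Adj y z
  · -- `y` is isolated in `G₀`
    have hay : ∀ a : G₀.Dart, a.fst ≠ y := by
      intro a ha
      have h1 := a.adj
      rw [ha] at h1
      exact hy _ h1
    refine key (Equiv.sumCongr σ₀ 1) ?_ ?_ ?_
    · rintro (a | a)
      · exact hσ₀.src a
      · rfl
    · rintro (a | a) (b | b) hab
      · exact (sc_inl _ _ _ _).2 (hσ₀.cyc a b hab)
      · cases b
        · exact absurd hab (hax a)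
        · exact absurd hab (hay a)
      · cases a
        · exact absurd hab.symm (hax b)
        · exact absurd hab.symm (hay b)
      · cases a <;> cases b
        · exact Equiv.Perm.SameCycle.refl _ _
        · exact absurd hab hxy
        · exact absurd hab.symm hxy
        · exact Equiv.Perm.SameCycle.refl _ _
    · rw [if_pos hy, hoST]
  · -- `y` has a dart in `G₀`
    have hy' := hy
    push Not at hy'
    obtain ⟨w, hw⟩ := hy'
    set d₁ : G₀.Dart := ⟨(y, w), hw⟩ with hd₁
    set s₁ : Equiv.Perm (G₀.Dart ⊕ Bool) := Equiv.sumCongr σ₀ 1 with hs₁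
    set s : Equiv.Perm (G₀.Dart ⊕ Bool) := s₁ * Equiv.swap (Sum.inl d₁) (Sum.inr true) with hs
    have e1 : s (Sum.inl d₁) = Sum.inr true := by
      rw [hs, Equiv.Perm.mul_apply, Equiv.swap_apply_left]
      rfl
    have e2 : s (Sum.inr true) = Sum.inl (σ₀ d₁) := by
      rw [hs, Equiv.Perm.mul_apply, Equiv.swap_apply_right]
      rfl
    have e3 : ∀ a, a ≠ d₁ → s (Sum.inl a) = Sum.inl (σ₀ a) := by
      intro a ha
      rw [hs, Equiv.Perm.mul_apply, Equiv.swap_apply_of_ne_of_ne (fun h' => ha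
        (Sum.inl_injective h')) (by simp)]
      rfl
    have e4 : s (Sum.inr false) = Sum.inr false := by
      rw [hs, Equiv.Perm.mul_apply, Equiv.swap_apply_of_ne_of_ne (by simp) (by simp)]
      rfl
    have c1 : ∀ a : G₀.Dart, s.SameCycle (Sum.inl a) (Sum.inl (σ₀ a)) := by
      intro a
      by_cases ha : a = d₁
      · subst ha
        refine ⟨2, ?_⟩
        rw [show (2 : ℤ) = 1 + 1 from rfl, zpow_add, zpow_one, Equiv.Perm.mul_apply, e1, e2]
      · exact ⟨1, by rw [zpow_one, e3 a ha]⟩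
    have c2 : ∀ (n : ℤ) (a : G₀.Dart), s.SameCycle (Sum.inl a) (Sum.inl ((σ₀ ^ n) a)) := by
      intro n
      induction n using Int.induction_on with
      | zero => intro a; exact Equiv.Perm.SameCycle.refl _ _
      | succ i ih =>
        intro a
        rw [add_comm, zpow_add, zpow_one, Equiv.Perm.mul_apply]
        exact (ih a).trans (c1 _)
      | pred i ih =>
        intro a
        refine (ih a).trans ?_
        have h1 : σ₀ ((σ₀ ^ (-(i : ℤ) - 1)) a) = (σ₀ ^ (-(i : ℤ))) a := by
          have h2 : (σ₀ ^ (-(i : ℤ))) = σ₀ * σ₀ ^ (-(i : ℤ) - 1) := by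
            rw [← zpow_one_add]
            congr 1
            ring
          rw [h2, Equiv.Perm.mul_apply]
        rw [← h1]
        exact (c1 _).symm
    have c3 : ∀ a b : G₀.Dart, a.fst = b.fst → s.SameCycle (Sum.inl a) (Sum.inl b) := by
      intro a b hab
      obtain ⟨n, hn⟩ := hσ₀.cyc a b hab
      rw [← hn]
      exact c2 n a
    have c4 : ∀ a : G₀.Dart, a.fst = y → s.SameCycle (Sum.inl a) (Sum.inr true) := by
      intro a ha
      exact (c3 a d₁ ha).trans ⟨1, by rw [zpow_one, e1]⟩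
    refine key s ?_ ?_ ?_
    · rintro (a | a)
      · by_cases ha : a = d₁
        · rw [ha, e1]
          rfl
        · rw [e3 a ha]
          exact hσ₀.src a
      · cases a
        · rw [e4]
        · rw [e2]
          exact hσ₀.src d₁
    · rintro (a | a) (b | b) hab
      · exact c3 a b hab
      · cases b
        · exact absurd hab (hax a)
        · exact c4 a hab
      · cases a
        · exact absurd hab.symm (hax b)
        · exact (c4 b hab.symm).symm
      · cases a <;> cases b
        · exact Equiv.Perm.SameCycle.refl _ _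
        · exact absurd hab hxy
        · exact absurd hab.symm hxy
        · exact Equiv.Perm.SameCycle.refl _ _
    · rw [if_neg hy, add_zero]
      have h1 : s * TT G x y = (s₁ * TT G x y) *
          Equiv.swap (Sum.inl (rev G₀ d₁)) (Sum.inr false) := by
        rw [hs, mul_assoc, mul_assoc, Equiv.mul_swap_eq_swap_mul]
        have h2 : TT G x y (Sum.inl (rev G₀ d₁)) = Sum.inl d₁ := by
          change Sum.inl (rev G₀ (rev G₀ d₁)) = _
          rw [(rev_pair G₀ d₁).1]
        have h3 : TT G x y (Sum.inr false) = Sum.inr true := by simp [TT]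
        rw [h2, h3]
      have h2 := (hSWAP (G₀.Dart ⊕ Bool) (s₁ * TT G x y) (Sum.inl (rev G₀ d₁)) (Sum.inr false)
        (by simp)).2 (by
          rw [hs₁, hST]
          exact sc_mix _ _ _ _)
      rw [← h1, hoST] at h2
      omega

end Pool.Agent.Helper23.AL.PEN

namespace Pool.Agent.Helper23.AL

theorem goalPEN : Pool.Agent.Helper26.AL.StmtPEN :=
  PEN.goalPEN' (Pool.Agent.Helper46.AF.goalSWAP Pool.Agent.Helper92.AF.goalORBS)
    Pool.Agent.Helper15.AF.goalCCN

end Pool.Agent.Helper23.AL
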